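import Pool.Agent.KS6_67.Lat.Separable
import Pool.Graph.R_seed8.Helper159.ClosedSet

set_option autoImplicit false

/-! # MP_36a89c_an: the attainable chains are exactly the nonempty compact sets of reals -/

namespace Pool.Agent.Results.MP_36a89c_an.AllAttainableChains

universe u

/-- **Classification of the attainable chains.** A totally ordered set `L` is order isomorphic to
the lattice of closed invariant subspaces of some bounded operator on some complex Hilbert space
(separable or not) if and only if `L` is order isomorphic to a nonempty compact set of reals. -/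
theorem result (L : Type u) [LinearOrder L] :
    (∃ (H : Type) (_ : NormedAddCommGroup H) (_ : InnerProductSpace ℂ H) (_ : CompleteSpace H)
      (T : H →L[ℂ] H),
      Nonempty ({M : Submodule ℂ H // IsClosed (M : Set H) ∧ ∀ x ∈ M, T x ∈ M} ≃o L)) ↔
    ∃ K : Set ℝ, K.Nonempty ∧ IsCompact K ∧ Nonempty (K ≃o L) := by
  constructor
  · rintro ⟨H, _, _, _, T, ⟨e⟩⟩
    exact Pool.Agent.KS6_67.Lat.compact_of_chain T e
  · rintro ⟨K, h1, h2, ⟨e⟩⟩
    obtain ⟨H, i1, i2, i3, -, T, ⟨f⟩⟩ := Pool.Agent.Helper159.compact_attainable K h1 h2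
    exact ⟨H, i1, i2, i3, T, ⟨f.symm.trans e⟩⟩

end Pool.Agent.Results.MP_36a89c_an.AllAttainableChains
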